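import Mathlib

/-!
# Nonlinear complex interpolation fails for (real) differentiable Lipschitz maps

Let `A₀ = ℓ²`, `A₁ = ℓ²` with the weights `16^k`, `B₀ = ℓ¹`, `B₁ = ℓ¹` with the weights `16^k`. We give
a Lipschitz map `U : A₀ → B₀`, differentiable at each point in the real sense (Gateaux and even
Fréchet), with `U (A₁) ⊂ B₁` and `‖U x‖ ≤ 4 ‖x‖` in the norms of `A₁, B₁`, and an element of
`[A₀, A₁]_{1/2}` which `U` maps outside of `[B₀, B₁]_{1/2}`.
-/

open Filter Topology Complex Complex.HadamardThreeLines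

namespace Pool.Agent.Results.MP_754066_an.NoComplexInterpolation

/-! ### Definitions -/

/-- An admissible function of Calderón for a couple `A₁ ⊂ A₀` (the inclusion is `i`): `f` is
continuous and bounded on the strip `0 ≤ Re z ≤ 1` with values in `A₀`, analytic inside, with
`f (it) → 0` in `A₀` for `|t| → ∞`; its values `f (1 + it) = i (g t)` are in `A₁`, continuous in the
norm of `A₁` and tend to zero there; `C` bounds the norms `‖f (it)‖` in `A₀` and `‖g t‖` in `A₁`. -/
structure Admissible {A0 A1 : Type} [NormedAddCommGroup A0] [NormedSpace ℂ A0]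
    [NormedAddCommGroup A1] [NormedSpace ℂ A1] (i : A1 →L[ℂ] A0) (f : ℂ → A0) (g : ℝ → A1)
    (C : ℝ) : Prop where
  diff : DiffContOnCl ℂ f (verticalStrip 0 1)
  bdd : ∃ K : ℝ, ∀ z ∈ verticalClosedStrip 0 1, ‖f z‖ ≤ K
  left_lim : Tendsto (fun t : ℝ => f (t * I)) (cocompact ℝ) (𝓝 0)
  right_eq : ∀ t : ℝ, i (g t) = f (1 + t * I)
  right_cont : Continuous g
  right_lim : Tendsto g (cocompact ℝ) (𝓝 0)
  left_le : ∀ t : ℝ, ‖f (t * I)‖ ≤ C
  right_le : ∀ t : ℝ, ‖g t‖ ≤ C

/-- The complex interpolation space `[A₀, A₁]_θ`. -/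
def Interp {A0 A1 : Type} [NormedAddCommGroup A0] [NormedSpace ℂ A0]
    [NormedAddCommGroup A1] [NormedSpace ℂ A1] (i : A1 →L[ℂ] A0) (θ : ℝ) : Set A0 :=
  {a | ∃ (f : ℂ → A0) (g : ℝ → A1) (C : ℝ), Admissible i f g C ∧ f θ = a}

/-- The norm of `[A₀, A₁]_θ`. -/
noncomputable def interpNorm {A0 A1 : Type} [NormedAddCommGroup A0] [NormedSpace ℂ A0]
    [NormedAddCommGroup A1] [NormedSpace ℂ A1] (i : A1 →L[ℂ] A0) (θ : ℝ) (a : A0) : ℝ :=
  sInf {C : ℝ | ∃ (f : ℂ → A0) (g : ℝ → A1), Admissible i f g C ∧ f θ = a}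

/-- `U` is Gateaux differentiable in the real sense, with bounded real-linear derivatives. -/
def RealGateaux {A0 B0 : Type} [NormedAddCommGroup A0] [NormedSpace ℂ A0]
    [NormedAddCommGroup B0] [NormedSpace ℂ B0] (U : A0 → B0) : Prop :=
  ∀ a : A0, ∃ U' : A0 →L[ℝ] B0, ∀ h : A0,
    Tendsto (fun t : ℝ => t⁻¹ • (U (a + t • h) - U a)) (𝓝[≠] 0) (𝓝 (U' h))

/-! ### Sequence spaces -/

/-- `ℓ²` -/
noncomputable abbrev E2 := lp (fun _ : ℕ => ℂ) 2
/-- `ℓ¹` -/
noncomputable abbrev E1 := lp (fun _ : ℕ => ℂ) 1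

lemma norm1_le {y : E1} {C : ℝ} (hC : 0 ≤ C) (h : ∀ n, ∑ k ∈ Finset.range n, ‖y k‖ ≤ C) :
    ‖y‖ ≤ C := by
  have h1 : (0 : ℝ) < (1 : ENNReal).toReal := by simp
  apply lp.norm_le_of_tsum_le h1 hC
  simp only [ENNReal.toReal_one, Real.rpow_one]
  exact Real.tsum_le_of_sum_range_le (fun _ => norm_nonneg _) h

lemma sum_le_norm1 (y : E1) (n : ℕ) : ∑ k ∈ Finset.range n, ‖y k‖ ≤ ‖y‖ := by
  have h1 : (0 : ℝ) < (1 : ENNReal).toReal := by simp
  have := lp.sum_rpow_le_norm_rpow h1 y (Finset.range n)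
  simpa using this

lemma mem1 {y : ℕ → ℂ} {C : ℝ} (h : ∀ n, ∑ k ∈ Finset.range n, ‖y k‖ ≤ C) : Memℓp y 1 := by
  apply memℓp_gen
  simp only [ENNReal.toReal_one, Real.rpow_one]
  exact summable_of_sum_range_le (fun _ => norm_nonneg _) h

/-- diagonal operators -/
noncomputable def diag (p : ENNReal) [Fact (1 ≤ p)] (d : ℕ → ℂ) (hd : ∀ k, ‖d k‖ ≤ 1) :
    lp (fun _ : ℕ => ℂ) p →L[ℂ] lp (fun _ : ℕ => ℂ) p :=
  LinearMap.mkContinuous
    { toFun := fun x => ⟨fun k => d k * x k, (lp.memℓp x).mono' (fun k => by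
        rw [norm_mul]
        exact mul_le_of_le_one_left (norm_nonneg _) (hd k))⟩
      map_add' := fun x y => by
        ext k
        simp [mul_add]
      map_smul' := fun c x => by
        ext k
        simp [mul_left_comm] } 1 (fun x => by
      rw [one_mul]
      apply lp.norm_mono (zero_lt_one.trans_le (Fact.out : 1 ≤ p)).ne'
      intro k
      show ‖d k * x k‖ ≤ ‖x k‖
      rw [norm_mul]
      exact mul_le_of_le_one_left (norm_nonneg _) (hd k))

lemma diag_apply (p : ENNReal) [Fact (1 ≤ p)] (d : ℕ → ℂ) (hd : ∀ k, ‖d k‖ ≤ 1)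
    (x : lp (fun _ : ℕ => ℂ) p) (k : ℕ) : diag p d hd x k = d k * x k := rfl

/-! ### The sequences -/

/-- `α k = (k+1)^(-3/4)` -/
noncomputable def α (k : ℕ) : ℝ := ((k : ℝ) + 1) ^ (-(3 / 4) : ℝ)
/-- `β k = (k+1)^(-1/4)` -/
noncomputable def β (k : ℕ) : ℝ := ((k : ℝ) + 1) ^ (-(1 / 4) : ℝ)
/-- `a k = α k / 4^k` -/
noncomputable def a (k : ℕ) : ℝ := α k / 4 ^ k
/-- `b k = β k * a k` -/
noncomputable def b (k : ℕ) : ℝ := β k * a k

lemma α_pos (k : ℕ) : 0 < α k := by unfold α; positivity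
lemma β_pos (k : ℕ) : 0 < β k := by unfold β; positivity
lemma a_pos (k : ℕ) : 0 < a k := by have := α_pos k; unfold a; positivity
lemma b_pos (k : ℕ) : 0 < b k := mul_pos (β_pos k) (a_pos k)

lemma β_le_one (k : ℕ) : β k ≤ 1 := by
  unfold β
  apply Real.rpow_le_one_of_one_le_of_nonpos
  · have : (0 : ℝ) ≤ k := Nat.cast_nonneg k
    linarith
  · norm_num

lemma α_le_one (k : ℕ) : α k ≤ 1 := by
  unfold α
  apply Real.rpow_le_one_of_one_le_of_nonpos
  · have : (0 : ℝ) ≤ k := Nat.cast_nonneg k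
    linarith
  · norm_num

lemma α_succ (k : ℕ) : α (k + 1) ≤ α k := by
  unfold α
  apply Real.rpow_le_rpow_of_nonpos
  · positivity
  · push_cast; linarith
  · norm_num

lemma a_succ (k : ℕ) : a (k + 1) ≤ a k / 4 := by
  unfold a
  rw [div_div, ← pow_succ]
  gcongr
  exact α_succ k

lemma αβ (k : ℕ) : α k * β k = 1 / ((k : ℝ) + 1) := by
  unfold α β
  rw [← Real.rpow_add (by positivity), show (-(3 / 4) + -(1 / 4) : ℝ) = -1 by norm_num,
    Real.rpow_neg_one, one_div]

lemma β_tendsto : Tendsto β atTop (𝓝 0) := by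
  have h1 : Tendsto (fun x : ℝ => x ^ (-(1 / 4) : ℝ)) atTop (𝓝 0) :=
    tendsto_rpow_neg_atTop (by norm_num)
  exact h1.comp (tendsto_atTop_add_const_right _ _ tendsto_natCast_atTop_atTop)

lemma a_le (k : ℕ) : a k ≤ (1 / 4) ^ k := by
  unfold a
  rw [one_div, inv_pow, div_eq_mul_inv]
  exact mul_le_of_le_one_left (by positivity) (α_le_one k)

lemma a_tendsto : Tendsto a atTop (𝓝 0) :=
  squeeze_zero (fun k => (a_pos k).le) a_le
    (tendsto_pow_atTop_nhds_zero_of_lt_one (by norm_num) (by norm_num))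

lemma b_le_a (k : ℕ) : b k ≤ a k := mul_le_of_le_one_left (a_pos k).le (β_le_one k)

/-- `u k = 16^k b k = 4^k / (k+1)` -/
lemma sixteen_b (k : ℕ) : 16 ^ k * b k = 4 ^ k / ((k : ℝ) + 1) := by
  unfold b a
  have h : (16 : ℝ) ^ k = 4 ^ k * 4 ^ k := by rw [← mul_pow]; norm_num
  rw [h]
  have h4 : (4 : ℝ) ^ k ≠ 0 := by positivity
  have := αβ k
  calc 4 ^ k * 4 ^ k * (β k * (α k / 4 ^ k)) = 4 ^ k * (α k * β k) := by field_simp
    _ = 4 ^ k / ((k : ℝ) + 1) := by rw [this]; ring

lemma sum_u (n : ℕ) : ∑ k ∈ Finset.range (n + 1), (4 : ℝ) ^ k / ((k : ℝ) + 1)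
    ≤ 2 * (4 ^ n / ((n : ℝ) + 1)) := by
  induction n with
  | zero => simp
  | succ n ih =>
    rw [Finset.sum_range_succ]
    have h1 : 2 * ((4 : ℝ) ^ n / ((n : ℝ) + 1)) ≤ 4 ^ (n + 1) / (((n + 1 : ℕ) : ℝ) + 1) := by
      push_cast
      rw [← mul_div_assoc, div_le_div_iff₀ (by positivity) (by positivity), pow_succ]
      have : (0 : ℝ) ≤ 4 ^ n * n := by positivity
      nlinarith
    linarith

lemma α_sq_summable : Summable (fun k => α k ^ 2) := by
  have h1 : Summable (fun k : ℕ => 1 / ((k : ℝ) + 1) ^ (3 / 2 : ℝ)) := by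
    have := (summable_nat_add_iff 1).2 (Real.summable_one_div_nat_rpow.2
      (by norm_num : (1 : ℝ) < 3 / 2))
    simpa using this
  apply h1.congr
  intro k
  unfold α
  rw [← Real.rpow_natCast, ← Real.rpow_mul (by positivity), one_div, ← Real.rpow_neg (by positivity)]
  norm_num

lemma α_mem : Memℓp (fun k => (α k : ℂ)) 2 := by
  apply memℓp_gen
  simp only [ENNReal.toReal_ofNat, Real.rpow_ofNat]
  apply α_sq_summable.congr
  intro k
  rw [Complex.norm_real, Real.norm_eq_abs, sq_abs]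

/-- the vector `α` -/
noncomputable def αv : E2 := ⟨fun k => (α k : ℂ), α_mem⟩

lemma a_mem : Memℓp (fun k => (a k : ℂ)) 2 := by
  apply α_mem.mono'
  intro k
  rw [Complex.norm_real, Complex.norm_real, Real.norm_eq_abs, Real.norm_eq_abs,
    abs_of_pos (a_pos k), abs_of_pos (α_pos k)]
  unfold a
  exact div_le_self (α_pos k).le (one_le_pow₀ (by norm_num))

/-- the vector `a` -/
noncomputable def av : E2 := ⟨fun k => (a k : ℂ), a_mem⟩

/-! ### The map `U` -/

/-- the cutoff: `1` on `[0, 1/4]` and `0` on `[1/2, ∞)` -/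
noncomputable def cut (u : ℝ) : ℝ := Real.smoothTransition ((4 - 16 * u ^ 2) / 3)

lemma cut_one {u : ℝ} (h0 : 0 ≤ u) (h : u ≤ 1 / 4) : cut u = 1 := by
  apply Real.smoothTransition.one_of_one_le
  nlinarith

lemma cut_zero {u : ℝ} (h : 1 / 2 ≤ |u|) : cut u = 0 := by
  apply Real.smoothTransition.zero_of_nonpos
  have : (1 / 2) ^ 2 ≤ |u| ^ 2 := by gcongr
  rw [sq_abs] at this
  linarith

lemma cut_nonneg (u : ℝ) : 0 ≤ cut u := Real.smoothTransition.nonneg _
lemma cut_le_one (u : ℝ) : cut u ≤ 1 := Real.smoothTransition.le_one _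

lemma exists_lip : ∃ K : NNReal, LipschitzWith K cut := by
  apply ContDiff.lipschitzWith_of_hasCompactSupport (𝕂 := ℝ) (n := 1) _ _ one_ne_zero
  · apply HasCompactSupport.intro (isCompact_Icc (a := (-(1 / 2) : ℝ)) (b := 1 / 2))
    intro x hx
    apply cut_zero
    by_contra hcon
    push Not at hcon
    have := abs_lt.1 hcon
    exact hx ⟨this.1.le, this.2.le⟩
  · unfold cut
    exact Real.smoothTransition.contDiff.comp (by fun_prop)

/-- the `k`-th cutoff function of `x` -/
noncomputable def η (k : ℕ) (x : E2) : ℝ := cut (‖x - av‖ / a k)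

lemma η_nonneg (k : ℕ) (x : E2) : 0 ≤ η k x := cut_nonneg _
lemma η_le_one (k : ℕ) (x : E2) : η k x ≤ 1 := cut_le_one _

lemma η_zero {k : ℕ} {x : E2} (h : a k / 2 ≤ ‖x - av‖) : η k x = 0 := by
  apply cut_zero
  rw [abs_of_nonneg (div_nonneg (norm_nonneg _) (a_pos k).le), le_div_iff₀ (a_pos k)]
  linarith

lemma η_one {k : ℕ} {x : E2} (h : ‖x - av‖ ≤ a k / 4) : η k x = 1 := by
  apply cut_one (div_nonneg (norm_nonneg _) (a_pos k).le)
  rw [div_le_iff₀ (a_pos k)]
  linarith

lemma U_mem (x : E2) : Memℓp (fun k => ((b k * η k x : ℝ) : ℂ)) 1 := by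
  apply mem1 (C := 2)
  intro n
  have h1 : ∀ k ∈ Finset.range n, ‖((b k * η k x : ℝ) : ℂ)‖ ≤ (1 / 2 : ℝ) ^ k := by
    intro k _
    rw [Complex.norm_real, Real.norm_eq_abs, abs_of_nonneg (mul_nonneg (b_pos k).le (η_nonneg k x))]
    calc b k * η k x ≤ b k * 1 := by gcongr; exacts [(b_pos k).le, η_le_one k x]
      _ ≤ a k := by rw [mul_one]; exact b_le_a k
      _ ≤ (1 / 4) ^ k := a_le k
      _ ≤ (1 / 2 : ℝ) ^ k := by gcongr; norm_num
  refine (Finset.sum_le_sum h1).trans ?_
  exact sum_geometric_two_le n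

/-- the map -/
noncomputable def U (x : E2) : E1 := ⟨fun k => ((b k * η k x : ℝ) : ℂ), U_mem x⟩

lemma U_apply (x : E2) (k : ℕ) : U x k = ((b k * η k x : ℝ) : ℂ) := rfl

lemma sub_coord (x y : E2) (k : ℕ) :
    ‖(U x - U y) k‖ = b k * |η k x - η k y| := by
  rw [lp.coeFn_sub, Pi.sub_apply, U_apply, U_apply, ← Complex.ofReal_sub, Complex.norm_real,
    Real.norm_eq_abs, ← mul_sub, abs_mul, abs_of_pos (b_pos k)]

/-- the basic estimate for one scale -/
lemma one_scale {K : NNReal} (hK : LipschitzWith K cut) {r s A A' : ℝ} (hr : 0 ≤ r) (hrs : r ≤ s)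
    (hA : 0 < A) (hA' : A' ≤ A / 4) :
    A * |cut (r / A) - cut (s / A)| ≤ K * ((min s A - min r A) - (min s A' - min r A')) := by
  set c : ℝ → ℝ := fun r => max (A / 4) (min r (A / 2)) with hc
  have hcut : ∀ r : ℝ, 0 ≤ r → cut (r / A) = cut (c r / A) := by
    intro r hr
    simp only [hc]
    rcases le_total r (A / 4) with h | h
    · rw [min_eq_left (by linarith), max_eq_left h, cut_one (by positivity) (by
        rw [div_le_iff₀ hA]; linarith), cut_one (by positivity) (by
        rw [div_le_iff₀ hA]; linarith)]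
    · rcases le_total r (A / 2) with h' | h'
      · rw [min_eq_left h', max_eq_right h]
      · rw [min_eq_right h', max_eq_right (by linarith), cut_zero, cut_zero]
        · rw [abs_of_nonneg (by positivity), le_div_iff₀ hA]; linarith
        · rw [abs_of_nonneg (by positivity), le_div_iff₀ hA]; linarith
  rw [hcut r hr, hcut s (hr.trans hrs)]
  have h1 := hK.dist_le_mul (c r / A) (c s / A)
  rw [Real.dist_eq, Real.dist_eq, ← sub_div, abs_div, abs_of_pos hA] at h1
  have h2 : |c r - c s| ≤ (min s A - min r A) - (min s A' - min r A') := by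
    simp only [hc, abs_le, min_def, max_def]
    split_ifs <;> constructor <;> linarith
  calc A * |cut (c r / A) - cut (c s / A)| ≤ A * (K * (|c r - c s| / A)) := by gcongr
    _ = K * |c r - c s| := by field_simp
    _ ≤ K * ((min s A - min r A) - (min s A' - min r A')) := by gcongr

lemma U_lip {K : NNReal} (hK : LipschitzWith K cut) (x y : E2) :
    ‖U x - U y‖ ≤ K * ‖x - y‖ := by
  wlog h : ‖x - av‖ ≤ ‖y - av‖ generalizing x y
  · rw [norm_sub_rev, norm_sub_rev x y]
    exact this y x (le_of_not_ge h)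
  apply norm1_le (by positivity)
  intro n
  set r := ‖x - av‖ with hr
  set s := ‖y - av‖ with hs
  have hterm : ∀ k ∈ Finset.range n, ‖(U x - U y) k‖ ≤
      K * ((min s (a k) - min r (a k)) - (min s (a (k + 1)) - min r (a (k + 1)))) := by
    intro k _
    rw [sub_coord]
    refine le_trans ?_ (one_scale hK (norm_nonneg _) h (a_pos k) (a_succ k))
    have := b_le_a k
    unfold η
    gcongr
  refine (Finset.sum_le_sum hterm).trans ?_
  rw [← Finset.mul_sum, Finset.sum_range_sub' (fun k => min s (a k) - min r (a k))]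
  have h1 : 0 ≤ min s (a n) - min r (a n) := by
    have := min_le_min_right (a n) h
    linarith
  have h2 : min s (a 0) - min r (a 0) ≤ s - r := by
    simp only [min_def]
    split_ifs <;> linarith
  have h3 : s - r ≤ ‖x - y‖ := by
    have := norm_sub_norm_le (y - av) (x - av)
    rw [sub_sub_sub_cancel_right, norm_sub_rev y x] at this
    exact this
  gcongr
  linarith

/-! ### The couples -/

lemma norm_sixteen (k : ℕ) : ‖((1 / 16 : ℂ)) ^ k‖ ≤ 1 := by
  rw [norm_pow]
  apply pow_le_one₀ (norm_nonneg _)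
  norm_num

/-- the inclusion `A₁ → A₀` -/
noncomputable def i2 : E2 →L[ℂ] E2 := diag 2 (fun k => (1 / 16 : ℂ) ^ k) norm_sixteen
/-- the inclusion `B₁ → B₀` -/
noncomputable def i1 : E1 →L[ℂ] E1 := diag 1 (fun k => (1 / 16 : ℂ) ^ k) norm_sixteen

lemma i2_apply (x : E2) (k : ℕ) : i2 x k = (1 / 16 : ℂ) ^ k * x k := rfl
lemma i1_apply (x : E1) (k : ℕ) : i1 x k = (1 / 16 : ℂ) ^ k * x k := rfl

lemma i2_inj : Function.Injective i2 := by
  intro x y h
  ext k
  have h1 : i2 x k = i2 y k := by rw [h]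
  rw [i2_apply, i2_apply] at h1
  exact mul_left_cancel₀ (pow_ne_zero _ (by norm_num)) h1

lemma i1_inj : Function.Injective i1 := by
  intro x y h
  ext k
  have h1 : i1 x k = i1 y k := by rw [h]
  rw [i1_apply, i1_apply] at h1
  exact mul_left_cancel₀ (pow_ne_zero _ (by norm_num)) h1

lemma active {x : E2} {k : ℕ} (h : η k (i2 x) ≠ 0) : 4 ^ k / ((k : ℝ) + 1) ≤ 2 * ‖x‖ := by
  have h1 : ‖i2 x - av‖ < a k / 2 := by
    by_contra hcon
    push Not at hcon
    exact h (η_zero hcon)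
  have h2 : ‖(i2 x - av) k‖ ≤ ‖i2 x - av‖ := lp.norm_apply_le_norm (by norm_num) _ k
  have h3 : (i2 x - av) k = (1 / 16 : ℂ) ^ k * x k - (a k : ℂ) := rfl
  have h4 : a k - (1 / 16) ^ k * ‖x‖ ≤ ‖(i2 x - av) k‖ := by
    rw [h3, norm_sub_rev]
    have h5 := norm_sub_norm_le (a k : ℂ) ((1 / 16 : ℂ) ^ k * x k)
    rw [Complex.norm_real, Real.norm_eq_abs, abs_of_pos (a_pos k), norm_mul, norm_pow] at h5
    have h6 : ‖(1 / 16 : ℂ)‖ = 1 / 16 := by norm_num
    rw [h6] at h5
    have h7 : ‖x k‖ ≤ ‖x‖ := lp.norm_apply_le_norm (by norm_num) _ k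
    have h8 : (1 / 16 : ℝ) ^ k * ‖x k‖ ≤ (1 / 16) ^ k * ‖x‖ := by gcongr
    linarith
  have h5 : a k / 2 ≤ (1 / 16) ^ k * ‖x‖ := by linarith
  have h6 : (16 : ℝ) ^ k * (a k / 2) ≤ ‖x‖ := by
    calc (16 : ℝ) ^ k * (a k / 2) ≤ 16 ^ k * ((1 / 16) ^ k * ‖x‖) := by gcongr
      _ = ‖x‖ := by rw [← mul_assoc, ← mul_pow]; norm_num
  rw [← sixteen_b]
  have h7 : (16 : ℝ) ^ k * b k ≤ 16 ^ k * a k := by
    have := b_le_a k
    gcongr
  linarith

lemma active_sum (x : E2) (n : ℕ) :
    ∑ k ∈ Finset.range n, 4 ^ k / ((k : ℝ) + 1) * η k (i2 x) ≤ 4 * ‖x‖ := by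
  induction n with
  | zero => simp
  | succ n ih =>
    by_cases h : η n (i2 x) = 0
    · rw [Finset.sum_range_succ, h, mul_zero, add_zero]
      exact ih
    · have h1 : ∑ k ∈ Finset.range (n + 1), 4 ^ k / ((k : ℝ) + 1) * η k (i2 x)
          ≤ ∑ k ∈ Finset.range (n + 1), 4 ^ k / ((k : ℝ) + 1) := by
        apply Finset.sum_le_sum
        intro k _
        exact mul_le_of_le_one_right (by positivity) (η_le_one k _)
      have h2 := sum_u n
      have h3 := active h
      linarith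

lemma U_bdd (x : E2) : ∃ y : E1, i1 y = U (i2 x) ∧ ‖y‖ ≤ 4 * ‖x‖ := by
  have hn : ∀ k : ℕ, ‖((4 ^ k / ((k : ℝ) + 1) * η k (i2 x) : ℝ) : ℂ)‖
      = 4 ^ k / ((k : ℝ) + 1) * η k (i2 x) := by
    intro k
    rw [Complex.norm_real, Real.norm_eq_abs, abs_of_nonneg]
    have := η_nonneg k (i2 x)
    positivity
  have hmem : Memℓp (fun k : ℕ => ((4 ^ k / ((k : ℝ) + 1) * η k (i2 x) : ℝ) : ℂ)) 1 := by
    apply mem1 (C := 4 * ‖x‖)
    intro n
    simp only [hn]
    exact active_sum x n
  refine ⟨⟨_, hmem⟩, ?_, ?_⟩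
  · ext k
    rw [i1_apply, U_apply]
    show (1 / 16 : ℂ) ^ k * ((4 ^ k / ((k : ℝ) + 1) * η k (i2 x) : ℝ) : ℂ) = _
    rw [← sixteen_b]
    push_cast
    have : (1 / 16 : ℂ) ^ k * 16 ^ k = 1 := by rw [← mul_pow]; norm_num
    linear_combination (b k * η k (i2 x) : ℂ) * this
  · apply norm1_le (by positivity)
    intro n
    refine le_trans (le_of_eq ?_) (active_sum x n)
    apply Finset.sum_congr rfl
    intro k _
    exact hn k

/-! ### Differentiability -/

lemma η_diff (k : ℕ) : Differentiable ℝ (η k) := by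
  have h1 : η k = fun x => Real.smoothTransition ((4 - 16 * ‖x - av‖ ^ 2 * (a k ^ 2)⁻¹) / 3) := by
    funext x
    unfold η cut
    congr 2
    rw [div_pow]
    ring
  rw [h1]
  have h2 : Differentiable ℝ Real.smoothTransition :=
    (Real.smoothTransition.contDiff (n := 1)).differentiable (by norm_num)
  apply h2.comp
  have h3 : Differentiable ℝ (fun x : E2 => ‖x - av‖ ^ 2) := by
    intro x
    exact DifferentiableAt.norm_sq ℂ (by fun_prop)
  fun_prop

lemma U_diff_ne {x : E2} (hx : x ≠ av) : DifferentiableAt ℝ U x := by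
  have hr : 0 < ‖x - av‖ := norm_pos_iff.2 (sub_ne_zero.2 hx)
  obtain ⟨n, hn⟩ := eventually_atTop.1 (a_tendsto.eventually (gt_mem_nhds hr))
  have hev : ∀ᶠ y in 𝓝 x, ‖x - av‖ / 2 < ‖y - av‖ := by
    have hc : Continuous (fun y : E2 => ‖y - av‖) := by fun_prop
    exact hc.continuousAt.eventually (lt_mem_nhds (by linarith))
  have heq : U =ᶠ[𝓝 x] fun y => ∑ k ∈ Finset.range n, (b k * η k y) • lp.single 1 k (1 : ℂ) := by
    filter_upwards [hev] with y hy
    ext m
    rw [U_apply, lp.coeFn_sum, Finset.sum_apply]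
    by_cases hm : m < n
    · rw [Finset.sum_eq_single m]
      · simp
      · intro k _ hkm
        rw [lp.coeFn_smul, Pi.smul_apply, lp.single_apply_ne _ _ _ hkm.symm, smul_zero]
      · intro h
        exact absurd (Finset.mem_range.2 hm) h
    · have h0 : η m y = 0 := by
        apply η_zero
        have := hn m (not_lt.1 hm)
        linarith
      rw [h0, mul_zero, Complex.ofReal_zero, Finset.sum_eq_zero]
      intro k hk
      have hkm : m ≠ k := by
        have := Finset.mem_range.1 hk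
        omega
      rw [lp.coeFn_smul, Pi.smul_apply, lp.single_apply_ne _ _ _ hkm, smul_zero]
  apply DifferentiableAt.congr_of_eventuallyEq _ heq
  have h1 : ∀ k, Differentiable ℝ (η k) := η_diff
  have h2 : ∀ k ∈ Finset.range n, DifferentiableAt ℝ
      (fun y => (b k * η k y) • (lp.single 1 k (1 : ℂ) : E1)) x := by
    intro k _
    exact ((h1 k x).const_mul (b k)).smul_const _
  exact DifferentiableAt.fun_sum h2

lemma U_diff_av : HasFDerivAt U (0 : E2 →L[ℝ] E1) av := by
  rw [hasFDerivAt_iff_isLittleO, Asymptotics.isLittleO_iff]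
  intro ε hε
  obtain ⟨n, hn⟩ := eventually_atTop.1 (β_tendsto.eventually
    (gt_mem_nhds (show (0 : ℝ) < 3 / 16 * ε by positivity)))
  have hev : ∀ᶠ y in 𝓝 av, ‖y - av‖ < a n / 4 := by
    have hc : Continuous (fun y : E2 => ‖y - av‖) := by fun_prop
    apply hc.continuousAt.eventually (gt_mem_nhds _)
    show ‖av - av‖ < a n / 4
    rw [sub_self, norm_zero]
    have := a_pos n
    positivity
  filter_upwards [hev] with y hy
  rw [zero_apply, sub_zero]
  set r := ‖y - av‖ with hr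
  have hr0 : 0 ≤ r := norm_nonneg _
  apply norm1_le (by positivity)
  intro m
  have hanti : ∀ k l, k ≤ l → a l ≤ a k := by
    intro k l hkl
    exact antitone_nat_of_succ_le (f := a) (fun k => by
      have h1 := a_succ k
      have h2 := a_pos k
      linarith) hkl
  have hterm : ∀ k ∈ Finset.range m, ‖(U y - U av) k‖ ≤
      (3 / 16 * ε) * (4 / 3) * (min (a k) (4 * r) - min (a (k + 1)) (4 * r)) := by
    intro k _
    rw [sub_coord]
    have h1 : η k av = 1 := by
      apply η_one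
      rw [sub_self, norm_zero]
      have := a_pos k
      positivity
    rw [h1]
    rcases le_or_gt (4 * r) (a k) with h | h
    · have h2 : η k y = 1 := η_one (by rw [← hr]; linarith)
      rw [h2, sub_self, abs_zero, mul_zero, min_eq_right h]
      have := min_le_right (a (k + 1)) (4 * r)
      apply mul_nonneg (by positivity)
      linarith
    · have hnk : n ≤ k := by
        by_contra hcon
        push Not at hcon
        have := hanti k n hcon.le
        linarith
      have h2 : |η k y - 1| ≤ 1 := by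
        have h3 := η_nonneg k y
        have h4 := η_le_one k y
        rw [abs_le]
        constructor <;> linarith
      have h5 := a_succ k
      have h6 := a_pos k
      have h7 := hn k hnk
      have h8 : min (a k) (4 * r) = a k := min_eq_left h.le
      have h9 : min (a (k + 1)) (4 * r) = a (k + 1) := min_eq_left (by linarith)
      rw [h8, h9]
      calc b k * |η k y - 1| ≤ b k * 1 := by gcongr; exact (b_pos k).le
        _ = β k * a k := by rw [mul_one]; rfl
        _ ≤ (3 / 16 * ε) * a k := by gcongr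
        _ ≤ (3 / 16 * ε) * (4 / 3 * (a k - a (k + 1))) := by gcongr; linarith
        _ = (3 / 16 * ε) * (4 / 3) * (a k - a (k + 1)) := by ring
  refine (Finset.sum_le_sum hterm).trans ?_
  rw [← Finset.mul_sum, Finset.sum_range_sub' (fun k => min (a k) (4 * r))]
  have h1 : 0 ≤ min (a m) (4 * r) := le_min (a_pos m).le (by positivity)
  have h2 : min (a 0) (4 * r) ≤ 4 * r := min_le_right _ _
  calc 3 / 16 * ε * (4 / 3) * (min (a 0) (4 * r) - min (a m) (4 * r))
      ≤ 3 / 16 * ε * (4 / 3) * (4 * r) := by gcongr; linarith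
    _ = ε * r := by ring

lemma U_diff : Differentiable ℝ U := by
  intro x
  by_cases hx : x = av
  · rw [hx]; exact U_diff_av.differentiableAt
  · exact U_diff_ne hx

lemma gateaux_of_differentiable {A0 B0 : Type} [NormedAddCommGroup A0] [NormedSpace ℂ A0]
    [NormedAddCommGroup B0] [NormedSpace ℂ B0] {U : A0 → B0} (hU : Differentiable ℝ U) :
    RealGateaux U := by
  intro x
  refine ⟨fderiv ℝ U x, fun h => ?_⟩
  exact hasLineDerivAt_iff_tendsto_slope_zero.1 ((hU x).hasFDerivAt.hasLineDerivAt h)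

/-! ### `a` is in `[A₀, A₁]_{1/2}` -/

/-- `log 4` -/
noncomputable def L : ℝ := 2 * Real.log 4

lemma L_pos : 0 < L := by
  unfold L
  have := Real.log_pos (by norm_num : (1 : ℝ) < 4)
  linarith

lemma norm_exp_le {z : ℂ} (hz : 0 ≤ z.re) (k : ℕ) : ‖cexp (-((k * L : ℝ) : ℂ) * z)‖ ≤ 1 := by
  rw [Complex.norm_exp, ← Complex.ofReal_neg, Complex.re_ofReal_mul]
  apply Real.exp_le_one_iff.2
  have := L_pos
  have h1 : 0 ≤ k * L * z.re := by positivity
  linarith

lemma f_mem {z : ℂ} (hz : 0 ≤ z.re) :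
    Memℓp (fun k => (α k : ℂ) * cexp (-((k * L : ℝ) : ℂ) * z)) 2 := by
  apply α_mem.mono'
  intro k
  rw [norm_mul]
  exact mul_le_of_le_one_right (norm_nonneg _) (norm_exp_le hz k)

open Classical in
/-- the analytic function -/
noncomputable def f (z : ℂ) : E2 :=
  if hz : 0 ≤ z.re then ⟨fun k => (α k : ℂ) * cexp (-((k * L : ℝ) : ℂ) * z), f_mem hz⟩ else 0

lemma f_apply {z : ℂ} (hz : 0 ≤ z.re) (k : ℕ) :
    f z k = (α k : ℂ) * cexp (-((k * L : ℝ) : ℂ) * z) := by
  unfold f
  rw [dif_pos hz]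

lemma f_norm {z : ℂ} (hz : 0 ≤ z.re) : ‖f z‖ ≤ ‖αv‖ := by
  apply lp.norm_mono (by norm_num)
  intro k
  rw [f_apply hz, norm_mul]
  exact mul_le_of_le_one_right (norm_nonneg _) (norm_exp_le hz k)

/-- the partial sums -/
noncomputable def P (n : ℕ) (z : ℂ) : E2 :=
  ∑ k ∈ Finset.range n, (cexp (-((k * L : ℝ) : ℂ) * z)) • lp.single 2 k (α k : ℂ)

lemma P_diff (n : ℕ) : Differentiable ℂ (P n) := by
  unfold P
  apply Differentiable.fun_sum
  intro k _
  apply Differentiable.smul_const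
  fun_prop

lemma P_apply_lt {n m : ℕ} (h : m < n) (z : ℂ) :
    P n z m = cexp (-((m * L : ℝ) : ℂ) * z) * (α m : ℂ) := by
  unfold P
  rw [lp.coeFn_sum, Finset.sum_apply, Finset.sum_eq_single m]
  · rw [lp.coeFn_smul, Pi.smul_apply, lp.single_apply_self, smul_eq_mul]
  · intro k _ hkm
    rw [lp.coeFn_smul, Pi.smul_apply, lp.single_apply_ne _ _ _ hkm.symm, smul_zero]
  · intro h'
    exact absurd (Finset.mem_range.2 h) h'

lemma P_apply_ge {n m : ℕ} (h : ¬ m < n) (z : ℂ) : P n z m = 0 := by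
  unfold P
  rw [lp.coeFn_sum, Finset.sum_apply, Finset.sum_eq_zero]
  intro k hk
  have hkm : m ≠ k := by
    have := Finset.mem_range.1 hk
    omega
  rw [lp.coeFn_smul, Pi.smul_apply, lp.single_apply_ne _ _ _ hkm, smul_zero]

lemma tail_le {z : ℂ} (hz : 0 ≤ z.re) (n : ℕ) : ‖f z - P n z‖ ≤ ‖αv - P n 0‖ := by
  apply lp.norm_mono (by norm_num)
  intro m
  rw [lp.coeFn_sub, lp.coeFn_sub, Pi.sub_apply, Pi.sub_apply, f_apply hz]
  by_cases h : m < n
  · rw [P_apply_lt h, mul_comm, sub_self, norm_zero]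
    exact norm_nonneg _
  · rw [P_apply_ge h, P_apply_ge h, sub_zero, sub_zero, norm_mul]
    exact mul_le_of_le_one_right (norm_nonneg _) (norm_exp_le hz m)

lemma tail_tendsto : Tendsto (fun n => ‖αv - P n 0‖) atTop (𝓝 0) := by
  have h1 := (lp.hasSum_single (by norm_num) αv).tendsto_sum_nat
  have h2 : (fun n => ∑ k ∈ Finset.range n, lp.single 2 k (αv k)) = fun n => P n 0 := by
    funext n
    unfold P
    apply Finset.sum_congr rfl
    intro k _
    rw [mul_zero, Complex.exp_zero, one_smul]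
    rfl
  rw [h2] at h1
  have h3 : Tendsto (fun n => αv - P n 0) atTop (𝓝 (αv - αv)) := tendsto_const_nhds.sub h1
  rw [sub_self] at h3
  simpa using h3.norm

lemma unif : TendstoUniformlyOn P f atTop {z : ℂ | 0 ≤ z.re} := by
  rw [Metric.tendstoUniformlyOn_iff]
  intro ε hε
  filter_upwards [tail_tendsto.eventually (gt_mem_nhds hε)] with n hn z hz
  rw [dist_eq_norm]
  exact (tail_le hz n).trans_lt hn

lemma f_cont : ContinuousOn f {z : ℂ | 0 ≤ z.re} :=
  unif.continuousOn (Frequently.of_forall fun n => (P_diff n).continuous.continuousOn)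

lemma f_diff : DifferentiableOn ℂ f {z : ℂ | 0 < z.re} := by
  have hopen : IsOpen {z : ℂ | 0 < z.re} := isOpen_lt continuous_const Complex.continuous_re
  have h1 : TendstoUniformlyOn P f atTop {z : ℂ | 0 < z.re} := unif.mono (fun z hz => (show (0 : ℝ) < z.re from hz).le)
  exact h1.tendstoLocallyUniformlyOn.differentiableOn
    (Eventually.of_forall fun n => (P_diff n).differentiableOn) hopen

/-- the scalar factor -/
noncomputable def w (z : ℂ) : ℂ := cexp (z ^ 2 - 1 / 4)

lemma w_norm (x t : ℝ) : ‖w (x + t * I)‖ = Real.exp (x ^ 2 - 1 / 4) * Real.exp (-t ^ 2) := by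
  unfold w
  rw [Complex.norm_exp, ← Real.exp_add]
  congr 1
  have : ((x : ℂ) + t * I) ^ 2 - 1 / 4 = ((x ^ 2 - t ^ 2 - 1 / 4 : ℝ) : ℂ) + ((2 * x * t : ℝ) : ℂ) * I := by
    push_cast
    linear_combination (t : ℂ) ^ 2 * I_sq
  rw [this, Complex.add_re, Complex.ofReal_re, Complex.re_ofReal_mul, Complex.I_re, mul_zero,
    add_zero]
  ring

lemma w_diff : Differentiable ℂ w := by unfold w; fun_prop

lemma strip_closure : closure (verticalStrip 0 1) ⊆ {z : ℂ | 0 ≤ z.re} := by
  apply closure_minimal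
  · intro z hz
    exact hz.1.le
  · exact isClosed_le continuous_const Complex.continuous_re

lemma gauss_tendsto : Tendsto (fun t : ℝ => Real.exp (-t ^ 2)) (cocompact ℝ) (𝓝 0) := by
  have h1 : Tendsto (fun t : ℝ => t ^ 2) (cocompact ℝ) atTop := by
    have h2 : Tendsto (fun t : ℝ => ‖t‖ ^ 2) (cocompact ℝ) atTop :=
      (tendsto_pow_atTop two_ne_zero).comp tendsto_norm_cocompact_atTop
    simpa using h2
  exact Real.tendsto_exp_neg_atTop_nhds_zero.comp h1

/-- the boundary function -/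
noncomputable def g (t : ℝ) : E2 := w (1 + t * I) • f (t * I)

lemma re_left (t : ℝ) : 0 ≤ ((t : ℂ) * I).re := by simp
lemma re_right (t : ℝ) : 0 ≤ (1 + (t : ℂ) * I).re := by simp

lemma admissible : Admissible i2 (fun z => w z • f z) g (Real.exp 1 * ‖αv‖) := by
  have hw0 : ∀ t : ℝ, ‖w ((t : ℂ) * I)‖ = Real.exp (-1 / 4) * Real.exp (-t ^ 2) := by
    intro t
    have := w_norm 0 t
    rw [Complex.ofReal_zero, zero_add] at this
    rw [this]; norm_num
  have hw1 : ∀ t : ℝ, ‖w (1 + (t : ℂ) * I)‖ = Real.exp (3 / 4) * Real.exp (-t ^ 2) := by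
    intro t
    have := w_norm 1 t
    rw [Complex.ofReal_one] at this
    rw [this]; norm_num
  have he : ∀ t : ℝ, Real.exp (-t ^ 2) ≤ 1 := fun t => Real.exp_le_one_iff.2 (by nlinarith [sq_nonneg t])
  have hα : 0 ≤ ‖αv‖ := norm_nonneg _
  have hg : ∀ t : ℝ, ‖g t‖ ≤ Real.exp (3 / 4) * ‖αv‖ * Real.exp (-t ^ 2) := by
    intro t
    unfold g
    rw [norm_smul, hw1]
    have := f_norm (re_left t)
    calc Real.exp (3 / 4) * Real.exp (-t ^ 2) * ‖f (t * I)‖
        ≤ Real.exp (3 / 4) * Real.exp (-t ^ 2) * ‖αv‖ := by gcongr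
      _ = _ := by ring
  have hf0 : ∀ t : ℝ, ‖w ((t : ℂ) * I) • f (t * I)‖ ≤ Real.exp (-1 / 4) * ‖αv‖ * Real.exp (-t ^ 2) := by
    intro t
    rw [norm_smul, hw0]
    have := f_norm (re_left t)
    calc Real.exp (-1 / 4) * Real.exp (-t ^ 2) * ‖f (t * I)‖
        ≤ Real.exp (-1 / 4) * Real.exp (-t ^ 2) * ‖αv‖ := by gcongr
      _ = _ := by ring
  constructor
  · constructor
    · exact w_diff.differentiableOn.smul (f_diff.mono fun z hz => hz.1)
    · exact w_diff.continuous.continuousOn.smul (f_cont.mono strip_closure)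
  · refine ⟨Real.exp (3 / 4) * ‖αv‖, fun z hz => ?_⟩
    have hz' : z = ((z.re : ℝ) : ℂ) + ((z.im : ℝ) : ℂ) * I := (Complex.re_add_im z).symm
    rw [norm_smul]
    have h1 : ‖w z‖ ≤ Real.exp (3 / 4) := by
      rw [hz', w_norm]
      have h2 : z.re ^ 2 ≤ 1 := by
        have := hz.1
        have := hz.2
        nlinarith
      calc Real.exp (z.re ^ 2 - 1 / 4) * Real.exp (-z.im ^ 2)
          ≤ Real.exp (3 / 4) * 1 := by
            gcongr
            · linarith
            · exact he _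
        _ = _ := mul_one _
    have h3 := f_norm (z := z) hz.1
    gcongr
  · apply squeeze_zero_norm hf0
    simpa using gauss_tendsto.const_mul (Real.exp (-1 / 4) * ‖αv‖)
  · intro t
    ext k
    rw [i2_apply]
    show (1 / 16 : ℂ) ^ k * (w (1 + t * I) * f (t * I) k) = w (1 + t * I) * f (1 + t * I) k
    rw [f_apply (re_left t), f_apply (re_right t)]
    have h1 : cexp (-((k * L : ℝ) : ℂ) * (1 + t * I))
        = (1 / 16 : ℂ) ^ k * cexp (-((k * L : ℝ) : ℂ) * (t * I)) := by
      rw [mul_add, Complex.exp_add]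
      congr 1
      rw [mul_one, ← Complex.ofReal_neg, ← Complex.ofReal_exp]
      have h2 : Real.exp (-(k * L)) = (1 / 16) ^ k := by
        rw [show -((k : ℝ) * L) = k * (-L) by ring, Real.exp_nat_mul]
        congr 1
        unfold L
        rw [Real.exp_neg, show (2 : ℝ) * Real.log 4 = Real.log 4 + Real.log 4 by ring,
          Real.exp_add, Real.exp_log (by norm_num)]
        norm_num
      rw [h2]
      push_cast
      rfl
    rw [h1]
    ring
  · unfold g
    have h1 : Continuous fun t : ℝ => w (1 + t * I) := w_diff.continuous.comp (by fun_prop)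
    have h2 : Continuous fun t : ℝ => f (t * I) :=
      f_cont.comp_continuous (by fun_prop) re_left
    exact h1.smul h2
  · apply squeeze_zero_norm hg
    simpa using gauss_tendsto.const_mul (Real.exp (3 / 4) * ‖αv‖)
  · intro t
    refine (hf0 t).trans ?_
    calc Real.exp (-1 / 4) * ‖αv‖ * Real.exp (-t ^ 2) ≤ Real.exp 1 * ‖αv‖ * 1 := by
          gcongr
          · norm_num
          · exact he t
      _ = _ := mul_one _
  · intro t
    refine (hg t).trans ?_
    calc Real.exp (3 / 4) * ‖αv‖ * Real.exp (-t ^ 2) ≤ Real.exp 1 * ‖αv‖ * 1 := by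
          gcongr
          · norm_num
          · exact he t
      _ = _ := mul_one _

lemma exp_half (k : ℕ) : cexp (-((k * L : ℝ) : ℂ) * ((1 / 2 : ℝ) : ℂ)) = (((1 / 4) ^ k : ℝ) : ℂ) := by
  rw [← Complex.ofReal_neg, ← Complex.ofReal_mul, ← Complex.ofReal_exp]
  congr 1
  rw [show -((k : ℝ) * L) * (1 / 2) = k * (-Real.log 4) by unfold L; ring, Real.exp_nat_mul,
    Real.exp_neg, Real.exp_log (by norm_num)]
  norm_num

lemma av_mem : av ∈ Interp i2 (1 / 2) := by
  refine ⟨_, _, _, admissible, ?_⟩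
  have h1 : w ((1 / 2 : ℝ) : ℂ) = 1 := by
    unfold w
    rw [show (((1 / 2 : ℝ) : ℂ)) ^ 2 - 1 / 4 = 0 by push_cast; ring, Complex.exp_zero]
  show w ((1 / 2 : ℝ) : ℂ) • f ((1 / 2 : ℝ) : ℂ) = av
  rw [h1, one_smul]
  ext k
  rw [f_apply (by simp), exp_half]
  show (α k : ℂ) * (((1 / 4) ^ k : ℝ) : ℂ) = (a k : ℂ)
  rw [← Complex.ofReal_mul]
  congr 1
  unfold a
  rw [one_div, inv_pow, div_eq_mul_inv]

/-! ### `U a` is not in `[B₀, B₁]_{1/2}` -/

lemma Uav_not_mem : U av ∉ Interp i1 (1 / 2) := by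
  rintro ⟨F, G, C, hF, hval⟩
  obtain ⟨K, hK⟩ := hF.bdd
  have hC : 0 ≤ C := (norm_nonneg _).trans (hF.right_le 0)
  have key : ∀ n : ℕ, ∑ k ∈ Finset.range n, 1 / ((k : ℝ) + 1) ≤ C := by
    intro n
    set Φ : ℂ → ℂ := fun z => ∑ k ∈ Finset.range n, cexp (((k * L : ℝ) : ℂ) * z) * (F z k) with hΦ
    have hcoord : ∀ k : ℕ, DiffContOnCl ℂ (fun z => F z k) (verticalStrip 0 1) := by
      intro k
      have := (lp.evalCLM ℂ (fun _ : ℕ => ℂ) 1 k).differentiable.comp_diffContOnCl hF.diff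
      exact this
    have hd : DiffContOnCl ℂ Φ (verticalStrip 0 1) := by
      constructor
      · apply DifferentiableOn.fun_sum
        intro k _
        apply DifferentiableOn.mul _ (hcoord k).differentiableOn
        fun_prop
      · apply continuousOn_finsetSum
        intro k _
        apply ContinuousOn.mul _ (hcoord k).continuousOn
        fun_prop
    have hexp : ∀ (k : ℕ) (z : ℂ), ‖cexp (((k * L : ℝ) : ℂ) * z)‖ = Real.exp (k * L * z.re) := by
      intro k z
      rw [Complex.norm_exp, Complex.re_ofReal_mul]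
    have hB : BddAbove ((norm ∘ Φ) '' verticalClosedStrip 0 1) := by
      refine ⟨∑ k ∈ Finset.range n, Real.exp (k * L) * K, ?_⟩
      rintro _ ⟨z, hz, rfl⟩
      simp only [Function.comp_apply, hΦ]
      refine (norm_sum_le _ _).trans (Finset.sum_le_sum fun k _ => ?_)
      rw [norm_mul, hexp]
      have h1 : ‖F z k‖ ≤ K := (lp.norm_apply_le_norm (by norm_num) _ k).trans (hK z hz)
      have h2 : k * L * z.re ≤ k * L := by
        have := L_pos
        have h3 : (0 : ℝ) ≤ k * L := by positivity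
        exact mul_le_of_le_one_right h3 hz.2
      gcongr
    have hleft : ∀ z ∈ re ⁻¹' {0}, ‖Φ z‖ ≤ C := by
      intro z hz
      have hz0 : z.re = 0 := hz
      have hz' : z = ((z.im : ℝ) : ℂ) * I := by
        apply Complex.ext <;> simp [hz0]
      simp only [hΦ]
      refine (norm_sum_le _ _).trans ?_
      have h1 : ∑ k ∈ Finset.range n, ‖cexp (((k * L : ℝ) : ℂ) * z) * (F z k)‖
          = ∑ k ∈ Finset.range n, ‖F z k‖ := by
        apply Finset.sum_congr rfl
        intro k _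
        rw [norm_mul, hexp, hz0, mul_zero, Real.exp_zero, one_mul]
      rw [h1]
      refine (sum_le_norm1 _ n).trans ?_
      rw [hz']
      exact hF.left_le _
    have hright : ∀ z ∈ re ⁻¹' {1}, ‖Φ z‖ ≤ C := by
      intro z hz
      have hz0 : z.re = 1 := hz
      have hz' : z = 1 + ((z.im : ℝ) : ℂ) * I := by
        apply Complex.ext <;> simp [hz0]
      simp only [hΦ]
      refine (norm_sum_le _ _).trans ?_
      have h1 : ∑ k ∈ Finset.range n, ‖cexp (((k * L : ℝ) : ℂ) * z) * (F z k)‖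
          = ∑ k ∈ Finset.range n, ‖G z.im k‖ := by
        apply Finset.sum_congr rfl
        intro k _
        have h2 : F z = i1 (G z.im) := by rw [hF.right_eq, ← hz']
        rw [norm_mul, hexp, hz0, mul_one, h2, i1_apply, norm_mul, norm_pow,
          Real.exp_nat_mul, ← mul_assoc, ← mul_pow]
        have h3 : Real.exp L * ‖(1 / 16 : ℂ)‖ = 1 := by
          unfold L
          rw [show (2 : ℝ) * Real.log 4 = Real.log 4 + Real.log 4 by ring,
            Real.exp_add, Real.exp_log (by norm_num)]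
          norm_num
        rw [h3, one_pow, one_mul]
      rw [h1]
      exact (sum_le_norm1 _ n).trans (hF.right_le _)
    have hmem : ((1 / 2 : ℝ) : ℂ) ∈ verticalClosedStrip 0 1 := by
      constructor
      · rw [Complex.ofReal_re]; norm_num
      · rw [Complex.ofReal_re]; norm_num
    have h3 := norm_le_interp_of_mem_verticalClosedStrip₀₁' Φ hmem hd hB hleft hright
    rw [Complex.ofReal_re, ← Real.rpow_add_of_nonneg hC (by norm_num) (by norm_num),
      show (1 : ℝ) - 1 / 2 + 1 / 2 = 1 by norm_num, Real.rpow_one] at h3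
    have h4 : Φ ((1 / 2 : ℝ) : ℂ) = ((∑ k ∈ Finset.range n, 1 / ((k : ℝ) + 1) : ℝ) : ℂ) := by
      simp only [hΦ]
      rw [hval, Complex.ofReal_sum]
      apply Finset.sum_congr rfl
      intro k _
      have h5 : η k av = 1 := by
        apply η_one
        rw [sub_self, norm_zero]
        have := a_pos k
        positivity
      rw [U_apply, h5, mul_one, ← αβ, ← Complex.ofReal_mul, ← Complex.ofReal_exp,
        ← Complex.ofReal_mul]
      congr 1
      rw [show (k : ℝ) * L * (1 / 2) = k * Real.log 4 by unfold L; ring, Real.exp_nat_mul,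
        Real.exp_log (by norm_num)]
      unfold b a
      field_simp
    rw [h4, Complex.norm_real, Real.norm_eq_abs, abs_of_nonneg (by positivity)] at h3
    exact h3
  have h1 := Real.tendsto_sum_range_one_div_nat_succ_atTop
  obtain ⟨n, hn⟩ := (h1.eventually (eventually_gt_atTop C)).exists
  exact absurd (key n) (not_le.2 hn)

/-- The answer to Q1 is negative. First part: there are couples of complex Banach spaces and a map
`U : A₀ → B₀` which is Lipschitz, bounded from `A₁` to `B₁`, and (Fréchet) differentiable everywhere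
in the real sense, which does not map `[A₀, A₁]_θ` into `[B₀, B₁]_θ`. Second part: the statement of
Q1 is false. -/
theorem result :
    (¬ ∀ (A0 A1 B0 B1 : Type) [NormedAddCommGroup A0] [NormedSpace ℂ A0] [CompleteSpace A0]
      [NormedAddCommGroup A1] [NormedSpace ℂ A1] [CompleteSpace A1]
      [NormedAddCommGroup B0] [NormedSpace ℂ B0] [CompleteSpace B0]
      [NormedAddCommGroup B1] [NormedSpace ℂ B1] [CompleteSpace B1]
      (i : A1 →L[ℂ] A0) (j : B1 →L[ℂ] B0), Function.Injective i → Function.Injective j →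
      ∀ θ : ℝ, 0 < θ → θ < 1 → ∀ (U : A0 → B0) (M0 M1 : ℝ),
      (∀ x y, ‖U x - U y‖ ≤ M0 * ‖x - y‖) →
      (∀ x : A1, ∃ y : B1, j y = U (i x) ∧ ‖y‖ ≤ M1 * ‖x‖) →
      Differentiable ℝ U →
      ∀ x ∈ Interp i θ, U x ∈ Interp j θ) ∧
    (¬ ∀ (A0 A1 B0 B1 : Type) [NormedAddCommGroup A0] [NormedSpace ℂ A0] [CompleteSpace A0]
      [NormedAddCommGroup A1] [NormedSpace ℂ A1] [CompleteSpace A1]
      [NormedAddCommGroup B0] [NormedSpace ℂ B0] [CompleteSpace B0]
      [NormedAddCommGroup B1] [NormedSpace ℂ B1] [CompleteSpace B1]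
      (i : A1 →L[ℂ] A0) (j : B1 →L[ℂ] B0), Function.Injective i → Function.Injective j →
      ∀ θ : ℝ, 0 < θ → θ < 1 → ∀ (U : A0 → B0) (M0 M1 : ℝ),
      (∀ x y, ‖U x - U y‖ ≤ M0 * ‖x - y‖) →
      (∀ x : A1, ∃ y : B1, j y = U (i x) ∧ ‖y‖ ≤ M1 * ‖x‖) →
      RealGateaux U →
      ∀ x ∈ Interp i θ, U x ∈ Interp j θ ∧
        interpNorm j θ (U x) ≤ max M0 M1 * interpNorm i θ x) := by
  obtain ⟨K, hK⟩ := exists_lip
  constructor
  · intro h
    exact Uav_not_mem (h E2 E2 E1 E1 i2 i1 i2_inj i1_inj (1 / 2) (by norm_num) (by norm_num) U K 4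
      (U_lip hK) U_bdd U_diff av av_mem)
  · intro h
    exact Uav_not_mem (h E2 E2 E1 E1 i2 i1 i2_inj i1_inj (1 / 2) (by norm_num) (by norm_num) U K 4
      (U_lip hK) U_bdd (gateaux_of_differentiable U_diff) av av_mem).1

end Pool.Agent.Results.MP_754066_an.NoComplexInterpolation
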